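import Pool.Agent.HypVol.L_width_lower
import Pool.Agent.HypVol.L_width_up

namespace Pool.Agent.Results.MP_4140a0_an.WidthOrder

open MeasureTheory
open scoped ENNReal

/-- Normalised Lebesgue measure on the torus `[0,2π)^d`. -/
noncomputable def TP (d : ℕ) : Measure (Fin d → ℝ) :=
  Measure.pi (fun _ : Fin d => ENNReal.ofReal (2 * Real.pi)⁻¹ •
    volume.restrict (Set.Ico 0 (2 * Real.pi)))

/-- Bernoulli kernel `1 + 2 ∑_{k ≥ 1} k^(-r) cos(k x - α π/2)` in one variable. -/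
noncomputable def F1 (r α x : ℝ) : ℝ :=
  1 + 2 * ∑' k : ℕ, ((k:ℝ)+1)^(-r) * Real.cos (((k:ℝ)+1) * x - α * Real.pi / 2)

/-- The kernel in `d` variables. -/
noncomputable def Fr {d : ℕ} (r : ℝ) (α x : Fin d → ℝ) : ℝ := ∏ j, F1 r (α j) (x j)

/-- The class `W^r_{q,α}` of functions with bounded mixed derivative, with values in `𝕜`
(the real or the complex numbers). -/
def MW (𝕜 : Type) [RCLike 𝕜] (d : ℕ) (r : ℝ) (q : ℝ≥0∞) (α : Fin d → ℝ) :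
    Set ((Fin d → ℝ) → 𝕜) :=
  {f | ∃ φ : (Fin d → ℝ) → 𝕜, MemLp φ q (TP d) ∧ eLpNorm φ q (TP d) ≤ 1 ∧
    f = fun x => ∫ y, Fr r α (x - y) • φ y ∂(TP d)}

/-- The Kolmogorov width `d_m(Θ, L_∞)`: infimum over all linear subspaces `U` of `L_∞` (with
scalars `𝕜`) of dimension at most `m` of the supremum over `f ∈ Θ` of the distance of `f` to `U`
in the (essential) sup norm. -/
noncomputable def kolWidth {𝕜 : Type} [RCLike 𝕜] {d : ℕ} (m : ℕ) (Θ : Set ((Fin d → ℝ) → 𝕜)) :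
    ℝ≥0∞ :=
  ⨅ (U : Submodule 𝕜 ((Fin d → ℝ) → 𝕜)) (_ : Module.Finite 𝕜 U ∧ Module.finrank 𝕜 U ≤ m ∧
    ∀ u ∈ U, MemLp u ⊤ (TP d)), ⨆ f ∈ Θ, ⨅ u ∈ U, eLpNorm (fun x => f x - u x) ⊤ (TP d)

/-- For every `d ≥ 3`, `2 ≤ q < ∞`, `r > 1` and all `α`, the width `d_m(W^r_{q,α}, L_∞)` has
exact order `m^(-r) (log m)^((d-1) r + 1/2)`. -/
theorem result (𝕜 : Type) [RCLike 𝕜] (d : ℕ) (hd : 3 ≤ d) (q r : ℝ) (hq : 2 ≤ q) (hr : 1 < r)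
    (α : Fin d → ℝ) : ∃ c C : ℝ, 0 < c ∧ 0 < C ∧ ∀ m : ℕ, 2 ≤ m →
      ENNReal.ofReal (c * (m:ℝ)^(-r) * (Real.log m)^(((d:ℝ)-1) * r + 1/2))
        ≤ kolWidth m (MW 𝕜 d r (ENNReal.ofReal q) α) ∧
      kolWidth m (MW 𝕜 d r (ENNReal.ofReal q) α)
        ≤ ENNReal.ofReal (C * (m:ℝ)^(-r) * (Real.log m)^(((d:ℝ)-1) * r + 1/2)) := by
  obtain ⟨c, hc, h1⟩ := HypVol.width_lower 𝕜 d hd q r (by linarith) hr α
  obtain ⟨C, hC, h2⟩ := HypVol.width_upper 𝕜 d (by omega) (ENNReal.ofReal q)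
    (by rw [show (2:ℝ≥0∞) = ENNReal.ofReal 2 by norm_num]; exact ENNReal.ofReal_le_ofReal hq) r hr α
  exact ⟨c, C, hc, hC, fun m hm => ⟨h1 m hm, h2 m hm⟩⟩

end Pool.Agent.Results.MP_4140a0_an.WidthOrder
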